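import Pool.Agent.Y105.CT.Main

set_option autoImplicit false

open Pool.Agent.Helper597.PNI Pool.Agent.Y105.CT

namespace Pool.Agent.Results.MP_a7db77_an.CotypeTwo

/-- There is an infinite-dimensional separable complex Banach space of (Rademacher) cotype 2, in
particular without copies of `c_0`, all of whose polynomial numerical indices `n^(k)(X)`, `k ≥ 1`,
are one. -/
theorem result : ∃ (X : Type) (_ : NormedAddCommGroup X) (_ : NormedSpace ℂ X),
    CompleteSpace X ∧ ¬ FiniteDimensional ℂ X ∧ TopologicalSpace.SeparableSpace X ∧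
      HasCotypeTwo X ∧ ¬ ContainsC0 X ∧ ∀ k : ℕ, 1 ≤ k → polyIndex X k = 1 := by
  obtain ⟨Q⟩ := Pool.Agent.TH325.PI.exists_quo Pool.Agent.TH325.PI.tow3
  have hc := countable_K3
  refine ⟨Pool.Agent.TH325.PI.Xsp Pool.Agent.TH325.PI.tow3, inferInstance, inferInstance,
    inferInstance, Q.infinite_dim, separable Q, hasCotypeTwo Q,
    Pool.Agent.TH325.PI.not_containsC0 Q, fun k hk => ?_⟩
  have := Q.nontriv
  exact Pool.Agent.TH325.PI.idx_one fun A z hz ε hε => Q.radius hk A z hz ε hε

end Pool.Agent.Results.MP_a7db77_an.CotypeTwo
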